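import Mathlib
import Pool.Agent.Helpers.FusionDefs
import Pool.Agent.Helpers.FusionMain

set_option autoImplicit false

namespace Pool.Agent.Results.MP_4aeb90_al.SimpleTensorPowers

open Pool.Agent.SimplePowers CategoryTheory

/-- For every `N` there are a fusion category over `ℂ` and a simple object `X` of it that is not
invertible and whose tensor power `X^{⊗ N}` is simple. -/
theorem result : ∀ N : ℕ, ∃ (𝒞 : FusionCategory) (X : 𝒞.C),
    Simple X ∧ ¬ Invertible' X ∧ Simple (tensorPow X N) :=
  Pool.Agent.SimplePowers.main

end Pool.Agent.Results.MP_4aeb90_al.SimpleTensorPowers
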